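import Pool.Agent.Q280.Pat.Main

/-!
# Two-regularity of the lengths of monochromatic progressions in pattern-count colourings

For every nonempty binary pattern `v` both questions are answered: the sequence
`(A_v(0,d))` is `2`-regular if and only if `v` has no digit `1`, and the sequence
`(A_v(d))` is never `2`-regular.
-/

namespace Pool.Agent.Results.MP_6350a9_co.TwoRegularity

open Q280.Pat

theorem result (v : List Bool) (hv : v ≠ []) :
    (∀ d, 1 ≤ d → ∃ C, ∀ n, ∃ l, 1 ≤ l ∧ l ≤ C ∧ ev v (n + l * d) % 2 ≠ ev v n % 2) ∧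
    (TwoRegular (fun d => if d = 0 then 0 else (A v 0 d : ℤ)) ↔ true ∉ v) ∧
    ¬ TwoRegular (fun d => if d = 0 then 0 else (Amax v d : ℤ)) := by
  refine ⟨?_, ⟨?_, ?_⟩, ?_⟩
  · intro d hd
    obtain ⟨C, hC⟩ := finite_bound v.length (val v) d (length_pos v hv) (val_lt v) hd
    refine ⟨C, fun n => ?_⟩
    obtain ⟨l, h1, h2, h3⟩ := hC n
    exact ⟨l, h1, h2, (ev_parity v hv _ _).2 h3⟩
  · intro h ht
    exact seqZero_not_regular v hv ht h
  · intro ht
    exact seqZero_regular v hv ht
  · exact seqMax_not_regular v hv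

end Pool.Agent.Results.MP_6350a9_co.TwoRegularity
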